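import Mathlib
import Pool.Agent.Lib.helper4.ASD

set_option autoImplicit false

namespace Pool.Agent.Results.MP_fb382b_nt.ASDFalse

/-- The `q`-expansion of the Eisenstein series of weight `k`. -/
noncomputable def E (k : ℕ) : LaurentSeries ℚ :=
  HahnSeries.ofPowerSeries ℤ ℚ (PowerSeries.mk fun n =>
    if n = 0 then 1 else -(2 * k / bernoulli k) * (ArithmeticFunction.sigma (k - 1) n : ℚ))

/-- The discriminant form. -/
noncomputable def Delta : LaurentSeries ℚ := (E 4 ^ 3 - E 6 ^ 2) / 1728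

/-- The `q`-expansion of the modular invariant. -/
noncomputable def jq : LaurentSeries ℚ := E 4 ^ 3 / Delta

/-- The meromorphic form `E_k / (j - j0) ^ r`. -/
noncomputable def F (k r : ℕ) (j0 : ℚ) : LaurentSeries ℚ := E k / (jq - HahnSeries.C j0) ^ r

/-- The coefficient with index `N / d`, which is zero if `N / d` is not an integer. -/
noncomputable def coef (f : LaurentSeries ℚ) (N d : ℕ) : ℚ :=
  if d ∣ N then f.coeff ((N / d : ℕ) : ℤ) else 0

/-- The `j`-invariant of an integral Weierstrass model. -/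
def jInv (W : WeierstrassCurve ℤ) : ℚ := (W.c₄ : ℚ) ^ 3 / (W.Δ : ℚ)

/-- The trace of Frobenius: `p + 1` minus the number of points (affine points and infinity). -/
noncomputable def ap (W : WeierstrassCurve ℤ) (p : ℕ) : ℤ :=
  p + 1 - (Nat.card {xy : ZMod p × ZMod p //
    (W.map (Int.castRingHom (ZMod p))).toAffine.Equation xy.1 xy.2} + 1)

open Pool.Agent.Lib.H4ASD PowerSeries

theorem b6 : bernoulli' 6 = 1 / 42 := by
  rw [bernoulli'_def]
  have h5 := bernoulli'_eq_zero_of_odd (n := 5) (by decide) (by decide)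
  norm_num [Finset.sum_range_succ, h5, Nat.choose]

theorem b8 : bernoulli' 8 = -1 / 30 := by
  rw [bernoulli'_def]
  have h5 := bernoulli'_eq_zero_of_odd (n := 5) (by decide) (by decide)
  have h7 := bernoulli'_eq_zero_of_odd (n := 7) (by decide) (by decide)
  norm_num [Finset.sum_range_succ, h5, h7, b6, Nat.choose]

theorem E_eq (k : ℕ) (c : ℚ) (h : -(2 * k / bernoulli k) = c) :
    E k = HahnSeries.ofPowerSeries ℤ ℚ (1 + C c * S ℚ (k - 1)) := by
  rw [E, h]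
  congr 1
  ext n
  rw [coeff_mk, map_add, coeff_C_mul, coeff_one, S, coeff_mk]
  split_ifs with hn
  · simp [hn]
  · simp

theorem E4_eq : E 4 = HahnSeries.ofPowerSeries ℤ ℚ (E4 ℚ) := by
  rw [E_eq 4 240 (by rw [bernoulli_eq_bernoulli'_of_ne_one (by decide), bernoulli'_four]; norm_num),
    E4, map_ofNat]

theorem E6_eq : E 6 = HahnSeries.ofPowerSeries ℤ ℚ (E6 ℚ) := by
  rw [E_eq 6 (-504) (by rw [bernoulli_eq_bernoulli'_of_ne_one (by decide), b6]; norm_num),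
    E6, map_neg, map_ofNat, neg_mul, sub_eq_add_neg]

theorem E8_eq : E 8 = HahnSeries.ofPowerSeries ℤ ℚ (E8 ℚ) := by
  rw [E_eq 8 480 (by rw [bernoulli_eq_bernoulli'_of_ne_one (by decide), b8]; norm_num),
    E8, map_ofNat]

theorem S0 (s : ℕ) : constantCoeff (S ℚ s) = 0 := by
  simp [S, ← coeff_zero_eq_constantCoeff_apply]

theorem UU_ne : UU ℚ ≠ 0 := by
  intro h
  have := congrArg constantCoeff h
  simp [UU, E4, E6, S0, map_ofNat] at this
  norm_num at this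

theorem VV_ne : VV ℚ ≠ 0 := by
  intro h
  have := congrArg (coeff 1) h
  have s1 : ∀ s, coeff 1 (S ℚ s) = 1 := by
    intro s
    simp [S]
  rw [VV, map_sub, coeff_one_pow, coeff_one_pow] at this
  simp [E4, E6, S0, coeff_one_mul, s1, coeff_one, map_ofNat] at this
  norm_num at this

theorem F_eq (G : ℤ⟦X⟧) (hG : G * UU ℤ ^ 6 = E8 ℤ * VV ℤ ^ 6) (n : ℕ) :
    (F 8 6 704).coeff (n : ℤ) = (coeff n G : ℤ) := by
  have h := congrArg (HahnSeries.ofPowerSeries ℤ ℚ) (map_eq (T := ℚ) hG)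
  have hU : HahnSeries.ofPowerSeries ℤ ℚ (UU ℚ) ≠ 0 := fun e =>
    UU_ne (HahnSeries.ofPowerSeries_injective (e.trans (map_zero _).symm))
  have hV : HahnSeries.ofPowerSeries ℤ ℚ (VV ℚ) ≠ 0 := fun e =>
    VV_ne (HahnSeries.ofPowerSeries_injective (e.trans (map_zero _).symm))
  have e1 : jq - HahnSeries.C 704 =
      HahnSeries.ofPowerSeries ℤ ℚ (UU ℚ) / HahnSeries.ofPowerSeries ℤ ℚ (VV ℚ) := by
    have e2 : E 4 ^ 3 - E 6 ^ 2 = HahnSeries.ofPowerSeries ℤ ℚ (VV ℚ) := by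
      rw [E4_eq, E6_eq, VV, map_sub, map_pow, map_pow]
    have e3 : HahnSeries.ofPowerSeries ℤ ℚ (UU ℚ) =
        1728 * E 4 ^ 3 - 704 * HahnSeries.ofPowerSeries ℤ ℚ (VV ℚ) := by
      rw [← e2, E4_eq, E6_eq, UU]
      simp only [map_add, map_mul, map_pow, map_ofNat]
      ring
    rw [jq, Delta, e2, e3, map_ofNat, div_div_eq_mul_div, sub_div, mul_div_cancel_right₀ _ hV,
      mul_comm]
  have e : F 8 6 704 = HahnSeries.ofPowerSeries ℤ ℚ (PowerSeries.map (Int.castRingHom ℚ) G) := by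
    rw [F, e1, E8_eq, div_pow, div_div_eq_mul_div, div_eq_iff (pow_ne_zero 6 hU)]
    simpa only [map_mul, map_pow] using h.symm
  rw [e, HahnSeries.ofPowerSeries_apply_coeff, coeff_map, eq_intCast]

def W0 : WeierstrassCurve ℤ := ⟨0, 1, 0, 4, -2⟩

theorem disc : W0.Δ = -7744 := by
  simp [W0, WeierstrassCurve.Δ, WeierstrassCurve.b₂, WeierstrassCurve.b₄, WeierstrassCurve.b₆,
    WeierstrassCurve.b₈]

theorem jW : jInv W0 = 704 := by
  rw [jInv, disc]
  simp [W0, WeierstrassCurve.c₄, WeierstrassCurve.b₂, WeierstrassCurve.b₄]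
  norm_num

theorem apW : ap W0 5 = -1 := by
  have e : Nat.card {xy : ZMod 5 × ZMod 5 //
      (W0.map (Int.castRingHom (ZMod 5))).toAffine.Equation xy.1 xy.2} =
      Nat.card {xy : ZMod 5 × ZMod 5 // xy.2 ^ 2 = xy.1 ^ 3 + xy.1 ^ 2 + 4 * xy.1 - 2} := by
    apply Nat.card_congr
    apply Equiv.subtypeEquivRight
    intro xy
    rw [WeierstrassCurve.Affine.equation_iff]
    simp [W0, sub_eq_add_neg]
  have e2 : Nat.card {xy : ZMod 5 × ZMod 5 // xy.2 ^ 2 = xy.1 ^ 3 + xy.1 ^ 2 + 4 * xy.1 - 2} =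
      6 := by
    rw [Nat.card_eq_fintype_card, Fintype.card_subtype]
    decide +kernel
  rw [ap, e, e2]
  norm_num

def cc (i : ℕ) : ℤ :=
  [1, -1, 280, 19250, -2406250, -546875000, 30517578125, -476837158203125].getD i 0

theorem charpoly (α β : ℂ) (h1 : α + β = -1) (h2 : α * β = 5) (z : ℂ) :
    ∏ i ∈ Finset.range (8 - 1), (z - α ^ (8 - 2 - i) * β ^ i) =
      ∑ i ∈ Finset.range 8, (cc i : ℂ) * z ^ (8 - 1 - i) := by
  have s2 : α ^ 2 + β ^ 2 = -9 := by linear_combination (α + β - 1) * h1 - 2 * h2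
  have p2 : α ^ 2 * β ^ 2 = 25 := by linear_combination (α * β + 5) * h2
  have t1 : α ^ 5 * β ^ 1 = 5 * (α ^ 2) ^ 2 := by linear_combination α ^ 4 * h2
  have t2 : α ^ 4 * β ^ 2 = 25 * α ^ 2 := by linear_combination α ^ 2 * p2
  have t3 : α ^ 3 * β ^ 3 = 125 := by linear_combination (α * β) * p2 + 25 * h2
  have t4 : α ^ 2 * β ^ 4 = 25 * β ^ 2 := by linear_combination β ^ 2 * p2
  have t5 : α ^ 1 * β ^ 5 = 5 * (β ^ 2) ^ 2 := by linear_combination β ^ 4 * h2
  have t0 : α ^ 6 * β ^ 0 = (α ^ 2) ^ 3 := by ring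
  have t6 : α ^ 0 * β ^ 6 = (β ^ 2) ^ 3 := by ring
  simp only [Finset.prod_range_succ, Finset.sum_range_succ, Finset.prod_range_zero,
    Finset.sum_range_zero, Nat.reduceSub, t0, t1, t2, t3, t4, t5, t6]
  generalize α ^ 2 = u at s2 p2 ⊢
  generalize β ^ 2 = v at s2 p2 ⊢
  have q2 : u ^ 2 + v ^ 2 = 31 := by linear_combination (u + v - 9) * s2 - 2 * p2
  have q3 : u ^ 3 + v ^ 3 = -54 := by linear_combination (u ^ 2 + v ^ 2 - u * v) * s2 - 9 * q2 + 9 * p2
  have f1 : (z - 25 * u) * (z - 25 * v) = z ^ 2 + 225 * z + 15625 := by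
    linear_combination (-25 * z) * s2 + 625 * p2
  have f2 : (z - 5 * u ^ 2) * (z - 5 * v ^ 2) = z ^ 2 - 155 * z + 15625 := by
    linear_combination (-5 * z) * q2 + 25 * (u * v + 25) * p2
  have f3 : (z - u ^ 3) * (z - v ^ 3) = z ^ 2 + 54 * z + 15625 := by
    linear_combination (-z) * q3 + (u ^ 2 * v ^ 2 + 25 * u * v + 625) * p2
  have e : 1 * (z - u ^ 3) * (z - 5 * u ^ 2) * (z - 25 * u) * (z - 125) * (z - 25 * v) *
      (z - 5 * v ^ 2) * (z - v ^ 3) = ((z - u ^ 3) * (z - v ^ 3)) *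
      ((z - 5 * u ^ 2) * (z - 5 * v ^ 2)) * ((z - 25 * u) * (z - 25 * v)) * (z - 125) := by ring
  rw [e, f1, f2, f3]
  simp [cc]
  ring

theorem result : ¬ ∀ k ∈ ({4, 6, 8, 10, 14} : Set ℕ), ∀ r : ℕ, 1 ≤ r → r ≤ k - 1 →
    ∀ (W : WeierstrassCurve ℤ) (p : ℕ), p.Prime → 5 ≤ p → ¬ (p : ℤ) ∣ W.Δ →
    jInv W ≠ 0 → jInv W ≠ 1728 → padicValRat p (jInv W) = 0 →
    padicValRat p (jInv W - 1728) = 0 →
    ∀ (α β : ℂ) (c : ℕ → ℤ), α + β = (ap W p : ℂ) → α * β = (p : ℂ) →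
    (∀ z : ℂ, ∏ i ∈ Finset.range (k - 1), (z - α ^ (k - 2 - i) * β ^ i) =
      ∑ i ∈ Finset.range k, (c i : ℂ) * z ^ (k - 1 - i)) →
    ∀ n l : ℕ, 1 ≤ n → 1 ≤ l → ∀ x : ℚ,
    x = ∑ i ∈ Finset.range k, (c i : ℚ) * coef (F k r (jInv W)) (n * p ^ l) (p ^ i) →
    x = 0 ∨ ((k : ℤ) - 1) * l - ((k : ℤ) - 3) * k / 2 - r ≤ padicValRat p x := by
  intro h
  have : Fact (Nat.Prime 5) := ⟨by norm_num⟩
  obtain ⟨G, hG⟩ := exists_G
  have hs : ((Real.sqrt 19 : ℝ) : ℂ) ^ 2 = 19 := by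
    rw [← Complex.ofReal_pow, Real.sq_sqrt (by norm_num)]
    norm_num
  have a1 : (-1 + (Real.sqrt 19 : ℂ) * Complex.I) / 2 + (-1 - (Real.sqrt 19 : ℂ) * Complex.I) / 2
      = -1 := by ring
  have a2 : (-1 + (Real.sqrt 19 : ℂ) * Complex.I) / 2 * ((-1 - (Real.sqrt 19 : ℂ) * Complex.I) / 2)
      = 5 := by
    linear_combination (-(Complex.I ^ 2) / 4) * hs - (19 / 4) * Complex.I_sq
  have v1 : padicValRat 5 (704 : ℚ) = 0 := by
    have := padicValRat.of_int (p := 5) (z := 704)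
    rw [padicValInt.eq_zero_of_not_dvd (by decide)] at this
    rw [show (704 : ℚ) = ((704 : ℤ) : ℚ) by norm_num]
    exact this
  have v2 : padicValRat 5 ((704 : ℚ) - 1728) = 0 := by
    have := padicValRat.of_int (p := 5) (z := -1024)
    rw [padicValInt.eq_zero_of_not_dvd (by decide)] at this
    rw [show (704 : ℚ) - 1728 = ((-1024 : ℤ) : ℚ) by norm_num]
    exact_mod_cast this
  have h1 := h 8 (by simp) 6 (by norm_num) (by norm_num) W0 5 (by norm_num) le_rfl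
    (by rw [disc]; decide) (by rw [jW]; norm_num) (by rw [jW]; norm_num) (by rw [jW]; exact v1)
    (by rw [jW]; exact v2) _ _ cc (by rw [apW]; exact_mod_cast a1) (by exact_mod_cast a2)
    (charpoly _ _ a1 a2) 1 6 le_rfl (by norm_num)
    ((coeff 15625 G - coeff 3125 G + 280 * coeff 625 G + 19250 * coeff 125 G -
      2406250 * coeff 25 G - 546875000 * coeff 5 G + 30517578125 * coeff 1 G : ℤ) : ℚ) (by
      rw [jW]
      simp only [Finset.sum_range_succ, Finset.sum_range_zero, coef, F_eq G hG]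
      norm_num [cc]
      ring)
  apply main_int G hG
  rcases h1 with h1 | h1
  · rw [Int.cast_eq_zero.1 h1]
    exact dvd_zero _
  · rw [padicValRat.of_int] at h1
    have h2 := (padicValInt_dvd_iff (p := 5) 16 _).2 (Or.inr (by
      norm_num at h1
      exact_mod_cast h1))
    exact_mod_cast h2

end Pool.Agent.Results.MP_fb382b_nt.ASDFalse
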